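import Pool.Agent.Lib.MP_fe1952_nt.Count

open Polynomial Finset Filter Topology Pool.Agent.Lib.MP_fe1952_nt

namespace Pool.Agent.Results.MP_fe1952_nt.FunctionField

/-- In `F[X]` (`F` any finite field, with `q` elements) the proportion of non-WW primes among the
monic primes `P` of degree `d` tends to one. The factorial is the product of all nonzero
polynomials of degree below `d`, `w` is the Wilson quotient and the norm of `P` is `q ^ d`. -/
theorem result (F : Type) [Field F] [Fintype F] :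
    Tendsto (fun d : ℕ =>
      (Set.ncard {P : F[X] | P.Monic ∧ Irreducible P ∧ P.natDegree = d ∧
          ∃ w : F[X], (∏ᶠ (a : F[X]) (_ : a ≠ 0 ∧ a.degree < (d : WithBot ℕ)), a) + 1 = P * w ∧
            ¬ P ∣ w ∧ ¬ P ^ 2 ∣ w ^ (Fintype.card F ^ d - 1) - 1} : ℝ) /
        (Set.ncard {P : F[X] | P.Monic ∧ Irreducible P ∧ P.natDegree = d} : ℝ))
      atTop (𝓝 1) := by
  classical
  obtain ⟨p, hp⟩ := CharP.exists F
  have hp0 : 0 < p := (CharP.char_is_prime F p).pos
  have hpF : (p : F) = 0 := CharP.cast_eq_zero F p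
  set q := Fintype.card F with hq
  have hq1 : (1 : ℝ) < q := by exact_mod_cast (Fintype.one_lt_card : 1 < q)
  set ε : ℕ → ℝ := fun d => d * q / q ^ (d / (6 * p)) with hε
  have hε0 : Tendsto ε atTop (𝓝 0) := by
    have h1 := (((tendsto_pow_const_div_const_pow_of_one_lt 1 hq1).comp
      (tendsto_add_atTop_nat 1)).comp (Nat.tendsto_div_const_atTop (n := 6 * p) (by omega))).const_mul
      ((6 * p : ℕ) * q * q : ℝ)
    rw [mul_zero] at h1
    refine squeeze_zero (fun d => by positivity) (fun d => ?_) h1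
    have h2 : (d : ℝ) ≤ (6 * p : ℕ) * (d / (6 * p) + 1 : ℕ) := by
      exact_mod_cast (Nat.lt_mul_div_succ d (show 0 < 6 * p by omega)).le
    simp only [hε, Function.comp, pow_one]
    rw [div_le_iff₀ (by positivity), pow_succ]
    calc (d : ℝ) * q ≤ (6 * p : ℕ) * (d / (6 * p) + 1 : ℕ) * q := by gcongr
      _ = _ := by field_simp
  have hlim : Tendsto (fun d => 1 - 4 * ε d / (1 - ε d)) atTop (𝓝 1) := by
    have := ((hε0.const_mul 4).div (hε0.const_sub 1) (by norm_num)).const_sub 1
    simpa using this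
  refine tendsto_of_tendsto_of_tendsto_of_le_of_le' hlim tendsto_const_nhds ?_ ?_
  · filter_upwards [eventually_ge_atTop 2, hε0.eventually (gt_mem_nhds one_pos)] with d hd hε1
    set Pr := (low F (d + 1)).filter fun f => f.Monic ∧ Irreducible f ∧ f.natDegree = d with hPr
    have hmem : ∀ f : F[X], f.natDegree = d → f ∈ low F (d + 1) := fun f hf =>
      mem_low.2 (degree_le_natDegree.trans_lt (Nat.cast_lt.2 (by omega)))
    have e1 : {P : F[X] | P.Monic ∧ Irreducible P ∧ P.natDegree = d} = Pr := by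
      ext f
      simp only [hPr, coe_filter, Set.mem_ofPred_eq]
      exact ⟨fun h => ⟨hmem f h.2.2, h⟩, fun h => h.2⟩
    have e2 : (∏ᶠ (a : F[X]) (_ : a ≠ 0 ∧ a.degree < (d : WithBot ℕ)), a) =
        ∏ a ∈ (low F d).erase 0, a :=
      finprod_cond_eq_prod_of_cond_iff _ fun _ => by simp [mem_low]
    rw [e1, e2, Set.ncard_coe_finset]
    set G := {P : F[X] | P.Monic ∧ Irreducible P ∧ P.natDegree = d ∧
      ∃ w : F[X], (∏ a ∈ (low F d).erase 0, a) + 1 = P * w ∧ ¬ P ∣ w ∧
        ¬ P ^ 2 ∣ w ^ (q ^ d - 1) - 1} with hG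
    have hGf : G.Finite := (low F (d + 1)).finite_toSet.subset fun f hf => hmem f hf.2.2.1
    have hm := Nat.mul_div_le d (6 * p)
    have c1 := count_zero hpF hp0 hm
    have c2 := count_dvd hpF hp0 hm
    have c3 := count_primes (F := F) (d := d) (by omega)
    rw [← hPr] at c3
    set B1 := (low F (d + 1)).filter fun f => hasseDeriv 2 f * disc f = 0 with hB1
    set B2 := (low F (d + 1)).filter fun f => f.Monic ∧ Irreducible f ∧ f.natDegree = d ∧
      disc f ≠ 0 ∧ f ∣ disc f with hB2
    have c4 : Pr.card ≤ G.ncard + (B1.card + B2.card) := by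
      rw [Set.ncard_eq_toFinset_card G hGf]
      refine (card_le_card fun f hf => ?_).trans
        ((card_union_le _ _).trans (Nat.add_le_add_left (card_union_le _ _) _))
      obtain ⟨h0, h1, h2, h3⟩ := mem_filter.1 hf
      by_cases a : hasseDeriv 2 f * disc f = 0
      · exact mem_union_right _ (mem_union_left _ (mem_filter.2 ⟨h0, a⟩))
      obtain ⟨a1, a2⟩ := mul_ne_zero_iff.1 a
      by_cases b : f ∣ disc f
      · exact mem_union_right _ (mem_union_right _ (mem_filter.2 ⟨h0, h1, h2, h3, a2, b⟩))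
      refine mem_union_left _ (hGf.mem_toFinset.2 ⟨h1, h2, h3, ?_⟩)
      have := criterion h1 h2 (by omega) (fun h => ?_) b
      · rwa [h3] at this
      · have := natDegree_le_of_dvd h a1
        have := natDegree_hasseDeriv_le f 2
        omega
    rw [← hq] at c1 c2 c3
    set m := d / (6 * p) with hmd
    have hQ : (0 : ℝ) < q ^ m := by positivity
    have r1 : ((B1.card : ℝ) + B2.card) * d ≤ 4 * ε d * q ^ d := by
      have : ((B1.card : ℝ) + B2.card) * q ^ m ≤ 4 * q ^ (d + 1) := by
        exact_mod_cast (by nlinarith : (B1.card + B2.card) * q ^ m ≤ 4 * q ^ (d + 1))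
      rw [← le_div_iff₀ hQ] at this
      calc _ ≤ 4 * (q : ℝ) ^ (d + 1) / q ^ m * d := by gcongr
        _ = _ := by simp only [hε, ← hmd]; ring
    have r2 : (1 - ε d) * q ^ d ≤ Pr.card * d := by
      have h1 : (q : ℝ) ^ d ≤ d * (Pr.card + q ^ (d / 2 + 1)) := by exact_mod_cast c3
      have h2 : (q : ℝ) ^ (d / 2) * q ^ m ≤ q ^ d := by
        rw [← pow_add]
        refine pow_le_pow_right₀ hq1.le ?_
        have : 2 * m ≤ 6 * p * m := Nat.mul_le_mul_right _ (by omega)
        omega
      rw [← le_div_iff₀ hQ] at h2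
      have h3 : (d : ℝ) * q ^ (d / 2 + 1) ≤ ε d * q ^ d :=
        calc _ = d * q * (q : ℝ) ^ (d / 2) := by ring
          _ ≤ d * q * ((q : ℝ) ^ d / q ^ m) := by gcongr
          _ = _ := by simp only [hε, ← hmd]; ring
      linarith
    have hd0 : (0 : ℝ) < d := by exact_mod_cast (by omega : 0 < d)
    have he : 0 < 1 - ε d := sub_pos.2 hε1
    have hP0 : (0 : ℝ) < Pr.card := (mul_pos_iff_of_pos_right hd0).1 ((by positivity :
      0 < (1 - ε d) * (q : ℝ) ^ d).trans_le r2)
    have r3 : ((B1.card : ℝ) + B2.card) ≤ 4 * ε d / (1 - ε d) * Pr.card := by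
      refine le_of_mul_le_mul_right (r1.trans ?_) hd0
      calc 4 * ε d * (q : ℝ) ^ d = 4 * ε d / (1 - ε d) * ((1 - ε d) * q ^ d) := by field_simp
        _ ≤ 4 * ε d / (1 - ε d) * (Pr.card * d) :=
          mul_le_mul_of_nonneg_left r2 (by simp only [hε] at he ⊢; positivity)
        _ = _ := by ring
    have r4 : (Pr.card : ℝ) ≤ G.ncard + (B1.card + B2.card) := by exact_mod_cast c4
    rw [le_div_iff₀ hP0]
    linarith
  · refine Eventually.of_forall fun d => div_le_one_of_le₀ (Nat.cast_le.2 ?_) (Nat.cast_nonneg _)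
    refine Set.ncard_le_ncard (fun f hf => ⟨hf.1, hf.2.1, hf.2.2.1⟩)
      ((low F (d + 1)).finite_toSet.subset fun f hf => mem_low.2
        (degree_le_natDegree.trans_lt (Nat.cast_lt.2 (by have := hf.2.2; omega))))

end Pool.Agent.Results.MP_fe1952_nt.FunctionField
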